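import Pool.Agent.H23K.General

/-!
# MP_2c424f_pr: proper `q`-colourings of `ℤ^d` are disordered for all `q ≥ 2 d`, `d ≥ 2`

`f` is a uniformly random proper `q`-colouring of a finite graph.  For every finite bipartite
graph, every edge `x y` and every vertex `v`, the Kempe cluster `K` of `v` for two fixed colours
(one of them the colour of `v`) satisfies the exact identity
`q P(x, y ∈ K) = P(x ∈ K) + P(y ∈ K)`, and `|P(f u = f v) - 1 / q| = (1 - 1 / q) P(u ∈ K)`.
Counting the edges of the connected graph `K` by levels gives the decay of correlations.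
-/

set_option autoImplicit false

open Finset Filter Topology

namespace Pool.Agent.Results.MP_2c424f_pr.AtMostTwiceTheDimension

/-- The `ℓ¹` distance of two sites of a box. -/
def l1 {d L : ℕ} (x y : Fin d → Fin L) : ℕ := ∑ i, ((x i : ℤ) - (y i : ℤ)).natAbs

/-- The box `Λ_L = {1, …, L}^d` with its nearest-neighbour edges; the coordinates of a site are
numbered `0, …, L - 1` here. -/
def box (d L : ℕ) : SimpleGraph (Fin d → Fin L) where
  Adj x y := l1 x y = 1
  symm := ⟨fun x y h => by
    have h' : l1 x y = 1 := h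
    show l1 y x = 1
    rw [← h']
    exact sum_congr rfl fun i _ => by omega⟩
  loopless := ⟨fun x h => by
    have h' : l1 x x = 1 := h
    simp [l1] at h'⟩

/-- `P(f u = f v)` for a uniformly random proper `q`-colouring `f` of the graph `G`. -/
noncomputable def agree {V : Type} (G : SimpleGraph V) (q : ℕ) (u v : V) : ℝ :=
  (Nat.card {f : G.Coloring (Fin q) // f u = f v} : ℝ) / Nat.card (G.Coloring (Fin q))

/-- `D_{q,d}(L + 1)`: the probability that two opposite corners of the box of side `L + 1` have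
the same colour, minus `1 / q`. -/
noncomputable def D (q d L : ℕ) : ℝ :=
  agree (box d (L + 1)) q (fun _ => 0) (fun _ => Fin.last L) - 1 / q

/-- The model is disordered: `D_{q,d}(L)` tends to `0` exponentially fast. -/
def Disordered (q d : ℕ) : Prop :=
  ∃ C ρ : ℝ, 0 < C ∧ 0 < ρ ∧ ρ < 1 ∧ ∀ L : ℕ, |D q d L| ≤ C * ρ ^ (L + 1)

/-- Long-range order: `q ≥ 2` and `D_{q,d}(L)` does not tend to `0`. -/
def LongRangeOrder (q d : ℕ) : Prop := 2 ≤ q ∧ ¬ Tendsto (D q d) atTop (𝓝 0)

/-- `q_c(d)`, the largest `q` with long-range order. -/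
noncomputable def qc (d : ℕ) : ℕ := sSup {q | LongRangeOrder q d}

/-- The subgraph of `G` formed by the edges both of whose ends have one of the colours `a`, `b`. -/
def twoColours {V : Type} (G : SimpleGraph V) {q : ℕ} (a b : Fin q) (f : V → Fin q) :
    SimpleGraph V where
  Adj x y := G.Adj x y ∧ (f x = a ∨ f x = b) ∧ (f y = a ∨ f y = b)
  symm := ⟨fun _ _ h => ⟨h.1.symm, h.2.2, h.2.1⟩⟩
  loopless := ⟨fun _ h => h.1.ne rfl⟩

/-- `P(x, y ∈ K | f v = a)`: the conditional probability, given that `v` has the colour `a`, that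
both `x` and `y` are in the Kempe cluster `K` of `v` for the colours `a`, `b`. -/
noncomputable def inCluster {V : Type} (G : SimpleGraph V) {q : ℕ} (a b : Fin q) (v x y : V) : ℝ :=
  (Nat.card {f : G.Coloring (Fin q) //
      f v = a ∧ (twoColours G a b f).Reachable v x ∧ (twoColours G a b f).Reachable v y} : ℝ)
    / Nat.card {f : G.Coloring (Fin q) // f v = a}

/-! ### the bridge to the counting files -/

section
set_option linter.unusedSectionVars false
variable {V C : Type} [Fintype V] [DecidableEq V] [Fintype C] [DecidableEq C]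

/-- colourings as functions -/
def asFun (G : SimpleGraph V) (P : (V → C) → Prop) :
    {f : G.Coloring C // P f} ≃ {σ : V → C // H23K.Proper G σ ∧ P σ} where
  toFun f := ⟨f.1, fun _ _ h => f.1.valid h, f.2⟩
  invFun σ := ⟨SimpleGraph.Coloring.mk σ.1 (fun {x y} h => σ.2.1 x y h), σ.2.2⟩
  left_inv f := by
    apply Subtype.ext
    ext x
    rfl
  right_inv σ := rfl

theorem card_asFun (G : SimpleGraph V) (P : (V → C) → Prop) :
    Nat.card {f : G.Coloring C // P f} = H23K.num G P := by
  classical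
  rw [Nat.card_congr (asFun G P), Nat.card_eq_fintype_card, Fintype.card_subtype]
  unfold H23K.num
  congr 1

theorem card_all (G : SimpleGraph V) :
    Nat.card (G.Coloring C) = H23K.num G (fun _ : V → C => True) := by
  rw [← card_asFun G (fun _ => True)]
  exact Nat.card_congr (Equiv.subtypeUnivEquiv fun _ => trivial).symm

end

theorem agree_eq {V : Type} [Fintype V] [DecidableEq V] (G : SimpleGraph V) (q : ℕ) (u v : V) :
    agree G q u v - 1 / q = H23K.corr G (Fin q) u v := by
  unfold agree H23K.corr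
  rw [card_all, card_asFun G (fun f : V → Fin q => f u = f v), Fintype.card_fin]

theorem inCluster_eq {V : Type} [Fintype V] [DecidableEq V] (G : SimpleGraph V) {q : ℕ}
    (a b : Fin q) (v x y : V) :
    inCluster G a b v x y = (H23K.ee G a b v x y : ℝ)
      / H23K.num G (fun σ : V → Fin q => σ v = a) := by
  unfold inCluster H23K.ee
  rw [card_asFun G (fun f : V → Fin q => f v = a), card_asFun G (fun f : V → Fin q =>
    f v = a ∧ (twoColours G a b f).Reachable v x ∧ (twoColours G a b f).Reachable v y)]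
  rfl

theorem ee_same {V : Type} [Fintype V] [DecidableEq V] (G : SimpleGraph V) {q : ℕ}
    (a b : Fin q) (v x : V) : H23K.ee G a b v x x = H23K.mm G a b v x :=
  H23K.num_congr fun _ _ => ⟨fun h => ⟨h.1, h.2.1⟩, fun h => ⟨h.1, h.2, h.2⟩⟩

/-- the two sides of a bipartite graph -/
theorem sides {V : Type} {G : SimpleGraph V} (hB : G.IsBipartite) :
    ∃ s : V → Bool, ∀ x y, G.Adj x y → s x ≠ s y := by
  obtain ⟨c⟩ := hB
  refine ⟨fun x => decide (c x = 0), ?_⟩
  intro x y hxy hh
  have h1 : c x ≠ c y := c.valid hxy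
  have h2 : (c x = 0 ↔ c y = 0) := by simpa using hh
  have h3 : ∀ i : Fin 2, i = 0 ∨ i = 1 := by decide
  rcases h3 (c x) with hx | hx <;> rcases h3 (c y) with hy | hy
  · exact h1 (hx.trans hy.symm)
  · rw [hx, hy] at h2; exact absurd (h2.1 rfl) (by decide)
  · rw [hx, hy] at h2; exact absurd (h2.2 rfl) (by decide)
  · exact h1 (hx.trans hy.symm)

/-- **Theorem.**
(1) For `d ≥ 2` and `q ≥ 2 d` the correlations of the uniformly random proper `q`-colouring of
the box `{1, …, L}^d` decay exponentially in the distance, uniformly in `L` and for all pairs of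
sites.
(2) For `d ≥ 2` and `q ≥ 2 d` the model is disordered.
(3) For `d ≥ 2` long-range order implies `q ≤ 2 d - 1`, so `q_c(d) ≤ 2 d - 1`.
(4) For every finite connected bipartite graph of maximum degree at most `Δ ≥ 1` and every
`q ≥ Δ + 1`, every vertex `v` and every `n ≥ 0`,
`∑_{u : dist(v, u) ≥ n + 1} |P(f u = f v) - 1 / q| ≤ Δ / (q - Δ) * ((Δ - 1) / (q - 1)) ^ n`.
(5) For every finite bipartite graph, two different colours `a`, `b` and every vertex `v`, the
Kempe cluster `K` of `v` satisfies, conditionally on `f v = a`,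
`|P(f u = f v) - 1 / q| = (1 - 1 / q) P(u ∈ K)` for every vertex `u` and
`q P(x, y ∈ K) = P(x ∈ K) + P(y ∈ K)` for every edge `x y`. -/
theorem result :
    (∀ d q : ℕ, 2 ≤ d → 2 * d ≤ q → ∃ C ρ : ℝ, 0 < C ∧ 0 < ρ ∧ ρ < 1 ∧
      ∀ (L : ℕ) (u v : Fin d → Fin L), |agree (box d L) q u v - 1 / q| ≤ C * ρ ^ l1 u v) ∧
    (∀ d q : ℕ, 2 ≤ d → 2 * d ≤ q → Disordered q d) ∧
    (∀ d : ℕ, 2 ≤ d → (∀ q, LongRangeOrder q d → q ≤ 2 * d - 1) ∧ qc d ≤ 2 * d - 1) ∧
    (∀ (V : Type) [Finite V] (G : SimpleGraph V) (q Δ : ℕ), G.IsBipartite → G.Connected →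
      1 ≤ Δ → (∀ x : V, Nat.card {y : V // G.Adj x y} ≤ Δ) → Δ + 1 ≤ q → ∀ (v : V) (n : ℕ),
      ∑ᶠ u ∈ {u : V | n + 1 ≤ G.dist v u}, |agree G q u v - 1 / q|
        ≤ Δ / ((q : ℝ) - Δ) * (((Δ : ℝ) - 1) / ((q : ℝ) - 1)) ^ n) ∧
    (∀ (V : Type) [Finite V] (G : SimpleGraph V) (q : ℕ) (a b : Fin q) (v : V),
      G.IsBipartite → a ≠ b →
      (∀ u, |agree G q u v - 1 / q| = (1 - 1 / (q : ℝ)) * inCluster G a b v u u) ∧
      (∀ x y, G.Adj x y →
        q * inCluster G a b v x y = inCluster G a b v x x + inCluster G a b v y y)) := by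
  have A : ∀ d q : ℕ, 2 ≤ d → 2 * d ≤ q → ∃ C ρ : ℝ, 0 < C ∧ 0 < ρ ∧ ρ < 1 ∧
      ∀ (L : ℕ) (u v : Fin d → Fin L), |agree (box d L) q u v - 1 / q| ≤ C * ρ ^ l1 u v := by
    intro d q hd hq
    obtain ⟨K, ρ, hK, hρ, hρ1, h⟩ := H23K.box_decay hd hq
    refine ⟨K, ρ, hK, hρ, hρ1, ?_⟩
    intro L u v
    rw [agree_eq]
    exact h L u v
  have B : ∀ d q : ℕ, 2 ≤ d → 2 * d ≤ q → Disordered q d := by
    intro d q hd hq
    obtain ⟨K, ρ, hK, hρ, hρ1, h⟩ := A d q hd hq
    refine ⟨K / ρ, ρ, div_pos hK hρ, hρ, hρ1, ?_⟩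
    intro L
    refine (h (L + 1) (fun _ => 0) (fun _ => Fin.last L)).trans ?_
    have h1 : L ≤ l1 (fun _ : Fin d => (0 : Fin (L + 1))) (fun _ => Fin.last L) := by
      unfold l1
      rw [sum_const, card_univ, Fintype.card_fin, smul_eq_mul]
      have h2 : (((0 : Fin (L + 1)) : ℤ) - ((Fin.last L : Fin (L + 1)) : ℤ)).natAbs = L := by
        simp
      rw [h2]
      exact Nat.le_mul_of_pos_left L (by omega)
    have h3 : ρ ^ l1 (fun _ : Fin d => (0 : Fin (L + 1))) (fun _ => Fin.last L) ≤ ρ ^ L :=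
      pow_le_pow_of_le_one hρ.le hρ1.le h1
    calc K * ρ ^ l1 (fun _ : Fin d => (0 : Fin (L + 1))) (fun _ => Fin.last L)
        ≤ K * ρ ^ L := mul_le_mul_of_nonneg_left h3 hK.le
      _ = K / ρ * ρ ^ (L + 1) := by
        rw [pow_succ]
        field_simp
  have C' : ∀ d : ℕ, 2 ≤ d → ∀ q, LongRangeOrder q d → q ≤ 2 * d - 1 := by
    intro d hd q hLRO
    by_contra hq
    have hq' : 2 * d ≤ q := by omega
    obtain ⟨K, ρ, -, hρ, hρ1, h⟩ := B d q hd hq'
    apply hLRO.2
    rw [tendsto_zero_iff_abs_tendsto_zero]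
    have h0 : Tendsto (fun L : ℕ => K * ρ ^ (L + 1)) atTop (𝓝 0) := by
      have := (tendsto_pow_atTop_nhds_zero_of_lt_one hρ.le hρ1).comp (tendsto_add_atTop_nat 1)
      have h2 := this.const_mul K
      rw [mul_zero] at h2
      exact h2
    exact squeeze_zero (fun L => abs_nonneg _) (fun L => h L) h0
  refine ⟨A, B, fun d hd => ⟨C' d hd, ?_⟩, ?_, ?_⟩
  · unfold qc
    rcases Set.eq_empty_or_nonempty {q | LongRangeOrder q d} with h | h
    · rw [h, csSup_empty]
      exact Nat.zero_le _
    · exact csSup_le h fun q hq => C' d hd q hq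
  · intro V _ G q Δ hB hG hΔ hdeg hq v n
    classical
    have := Fintype.ofFinite V
    obtain ⟨s, hsne⟩ := sides hB
    have hdeg' : ∀ x, H23K.dgr G x ≤ Δ := by
      intro x
      have := hdeg x
      rw [Nat.card_eq_fintype_card, Fintype.card_subtype] at this
      unfold H23K.dgr
      convert this
    have key := H23K.general (C := Fin q) hsne hG hΔ hdeg' (by rw [Fintype.card_fin]; exact hq) v n
    rw [Fintype.card_fin] at key
    refine le_trans (le_of_eq ?_) key
    rw [finsum_mem_eq_finite_toFinset_sum _ (Set.toFinite _)]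
    apply sum_congr
    · ext u
      simp
    · intro u _
      rw [agree_eq]
  · intro V _ G q a b v hB hab
    classical
    have := Fintype.ofFinite V
    obtain ⟨s, hsne⟩ := sides hB
    constructor
    · intro u
      rw [agree_eq, inCluster_eq, ee_same,
        H23K.corr_eq hsne hab v u (H23K.num_pos hsne hab v), Fintype.card_fin]
    · intro x y hxy
      rw [inCluster_eq, inCluster_eq, inCluster_eq, ee_same, ee_same, ← add_div, mul_div_assoc']
      have := H23K.ident hsne hab v x y hxy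
      rw [Fintype.card_fin] at this
      congr 1
      exact_mod_cast this.symm

end Pool.Agent.Results.MP_2c424f_pr.AtMostTwiceTheDimension
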